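import Pool.Agent.helper64.OT.SpecG
import Pool.Agent.helper98.OT.MF2

/-! # og:MGS, the fourth moment off the diagonal -/

set_option autoImplicit false

namespace Pool.Agent.OG

open Finset Pool.Agent.OT Pool.Agent.SPI Pool.Agent.helper85.PG
open scoped Pointwise

theorem MGS (hFMS : FMS_stmt) (hMFS : MFS_stmt) (hDIS : DIS_stmt) (hHHB : HHB_stmt) (hHHS : HHS_stmt) (hPSS : PSS_stmt) : MGS_stmt := by
  intro p _ χ S hχ hS
  have _hPSS := hPSS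
  have hp : 0 < p := (Fact.out : p.Prime).pos
  have hpR : (0 : ℝ) < p := by exact_mod_cast hp
  have hp1 : (1 : ℝ) ≤ p := by exact_mod_cast hp
  have hTR : (1 : ℝ) ≤ S.card := by exact_mod_cast hS.card_pos
  have hN0 : 0 ≤ (p : ℝ) / S.card := by positivity
  have hNp : (p : ℝ) / S.card ≤ p := div_le_self hpR.le hTR
  have h1 := hMFS p χ S hχ hS
  rw [← hFMS p χ S] at h1
  have h2 := hDIS p χ S hS
  have h3 := MF2_split (fun c c' => ‖TpS χ S c c'‖ ^ 4) (fun _ _ => by positivity)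
  have h4 := hHHS p χ hχ
  have hHH : ∀ lam : ZMod p, 0 ≤ HH χ lam := fun lam => by unfold HH; positivity
  have h5 : ∑ lam ∈ univ.filter (fun lam : ZMod p => lam ≠ 0 ∧ lam ≠ 1), HH χ lam ≤ (p : ℝ) * (p - 2) :=
    le_trans (Finset.sum_le_sum_of_subset_of_nonneg (Finset.filter_subset _ _) (fun i _ _ => hHH i)) h4
  set N : ℝ := (p : ℝ) / S.card with hN
  have h6 : ∑ lam ∈ univ.filter (fun lam : ZMod p => lam ≠ 0 ∧ lam ≠ 1), HH χ lam * nS S lam ≤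
      N ^ 4 / p * ∑ lam ∈ univ.filter (fun lam : ZMod p => lam ≠ 0 ∧ lam ≠ 1), HH χ lam +
        4 * p * ∑ lam ∈ univ.filter (fun lam : ZMod p => lam ≠ 0 ∧ lam ≠ 1), |nS S lam - N ^ 4 / p| := by
    rw [Finset.mul_sum, Finset.mul_sum, ← Finset.sum_add_distrib]
    apply Finset.sum_le_sum
    intro lam hlam
    rw [Finset.mem_filter] at hlam
    have h7 := hHHB p χ lam hχ hlam.2.1 hlam.2.2
    have h8 : HH χ lam * (nS S lam - N ^ 4 / p) ≤ 4 * p * |nS S lam - N ^ 4 / p| :=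
      calc HH χ lam * (nS S lam - N ^ 4 / p) ≤ HH χ lam * |nS S lam - N ^ 4 / p| :=
            mul_le_mul_of_nonneg_left (le_abs_self _) (hHH lam)
        _ ≤ 4 * p * |nS S lam - N ^ 4 / p| := mul_le_mul_of_nonneg_right h7 (abs_nonneg _)
    have h9 : HH χ lam * nS S lam = N ^ 4 / p * HH χ lam + HH χ lam * (nS S lam - N ^ 4 / p) := by ring
    rw [h9]
    linarith
  have h10 : N ^ 4 / p * ∑ lam ∈ univ.filter (fun lam : ZMod p => lam ≠ 0 ∧ lam ≠ 1), HH χ lam ≤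
      N ^ 4 * ((p : ℝ) - 2) := by
    calc N ^ 4 / p * ∑ lam ∈ univ.filter (fun lam : ZMod p => lam ≠ 0 ∧ lam ≠ 1), HH χ lam ≤
        N ^ 4 / p * ((p : ℝ) * (p - 2)) := mul_le_mul_of_nonneg_left h5 (by positivity)
      _ = N ^ 4 * ((p : ℝ) - 2) := by field_simp
  have h11 : N ^ 2 ≤ (p : ℝ) ^ 2 := pow_le_pow_left₀ hN0 hNp 2
  have h12 : N ^ 4 ≤ N ^ 2 * (p : ℝ) ^ 2 := by
    have := mul_le_mul_of_nonneg_left h11 (sq_nonneg N)
    nlinarith [this]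
  have h13 : N ^ 3 * p ≤ N ^ 2 * (p : ℝ) ^ 2 := by
    have h14 : N * p ≤ (p : ℝ) * p := mul_le_mul_of_nonneg_right hNp hpR.le
    have := mul_le_mul_of_nonneg_left h14 (sq_nonneg N)
    nlinarith [this]
  have h15 : N ^ 2 * ((p : ℝ) + 1) ^ 2 ≤ 4 * (N ^ 2 * (p : ℝ) ^ 2) := by
    have h16 : ((p : ℝ) + 1) ^ 2 ≤ 4 * (p : ℝ) ^ 2 := by nlinarith
    have := mul_le_mul_of_nonneg_left h16 (sq_nonneg N)
    linarith
  have h17 : 0 ≤ N ^ 2 * (p : ℝ) ^ 2 := by positivity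
  have e1 : 3 * N ^ 2 * ((p : ℝ) + 1) ^ 2 = 3 * (N ^ 2 * ((p : ℝ) + 1) ^ 2) := by ring
  have e2 : 54 * N ^ 3 * (p : ℝ) = 54 * (N ^ 3 * p) := by ring
  have e3 : 100 * N ^ 2 * (p : ℝ) ^ 2 = 100 * (N ^ 2 * (p : ℝ) ^ 2) := by ring
  have e4 : ((p : ℝ) - 3) * N ^ 4 = N ^ 4 * ((p : ℝ) - 2) - N ^ 4 := by ring
  rw [e1, e2] at h1
  rw [e3]
  rw [e4] at h2
  linarith

end Pool.Agent.OG
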