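import Pool.Agent.helper64.OT.SpecM

/-! # ot:GQ, quadratic Gauss sums -/

set_option autoImplicit false

namespace Pool.Agent.OT

open Finset

theorem GQ : GQ_stmt := by
  classical
  intro p _ hp2
  have hchar : ringChar (ZMod p) ≠ 2 := by
    rw [ZMod.ringChar_zmod_n]
    exact hp2
  set χ₂ : MulChar (ZMod p) ℂ := (quadraticChar (ZMod p)).ringHomComp (Int.castRingHom ℂ) with hχ₂
  have hval : ∀ x : ZMod p, χ₂ x = ((quadraticChar (ZMod p) x : ℤ) : ℂ) := fun x => rfl
  have hprim : (ZMod.stdAddChar (N := p)).IsPrimitive := ZMod.isPrimitive_stdAddChar p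
  have hne : χ₂ ≠ 1 := (MulChar.ringHomComp_ne_one_iff (Int.cast_injective (α := ℂ))).2 (quadraticChar_ne_one hchar)
  have hquad : χ₂.IsQuadratic := (quadraticChar_isQuadratic (ZMod p)).comp _
  set g : ℂ := gaussSum χ₂ (ZMod.stdAddChar (N := p)) with hg
  have hsq : ∀ x : ZMod p, x ≠ 0 → χ₂ x * χ₂ x = 1 := by
    intro x hx
    rw [hval, ← Int.cast_mul, ← sq, quadraticChar_sq_one hx, Int.cast_one]
  have h3 : ∀ m : ZMod p, ∑ h : ZMod p, ((quadraticChar (ZMod p) h : ℤ) : ℂ) * ps (m * h) =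
      g * ((quadraticChar (ZMod p) m : ℤ) : ℂ) := by
    intro m
    by_cases hm : m = 0
    · subst hm
      have e1 : ∀ h : ZMod p, ((quadraticChar (ZMod p) h : ℤ) : ℂ) * ps ((0 : ZMod p) * h) = χ₂ h := by
        intro h
        rw [zero_mul, hval]
        unfold ps
        rw [AddChar.map_zero_eq_one, mul_one]
      rw [Finset.sum_congr rfl fun h _ => e1 h, MulChar.sum_eq_zero_of_ne_one hne, ← hval, MulChar.map_zero, mul_zero]
    · have e1 := gaussSum_mulShift χ₂ (ZMod.stdAddChar (N := p)) (Units.mk0 m hm)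
      rw [Units.val_mk0] at e1
      have e2 : gaussSum χ₂ ((ZMod.stdAddChar (N := p)).mulShift m) = ∑ h : ZMod p, ((quadraticChar (ZMod p) h : ℤ) : ℂ) * ps (m * h) := rfl
      rw [e2] at e1
      calc ∑ h : ZMod p, ((quadraticChar (ZMod p) h : ℤ) : ℂ) * ps (m * h)
          = (χ₂ m * χ₂ m) * ∑ h : ZMod p, ((quadraticChar (ZMod p) h : ℤ) : ℂ) * ps (m * h) := by rw [hsq m hm, one_mul]
        _ = g * χ₂ m := by rw [mul_assoc, e1, ← hg, mul_comm]
  refine ⟨g, ?_, ?_, h3⟩
  · have e1 := gaussSum_sq hne hquad hprim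
    rw [ZMod.card] at e1
    exact e1
  · intro A B hA
    have hcard : ∀ y : ZMod p, ((univ.filter fun c : ZMod p => c ^ 2 = y).card : ℤ) = quadraticChar (ZMod p) y + 1 := by
      intro y
      have e1 := quadraticChar_card_sqrts hchar y
      rw [← e1]
      congr 2
      ext c
      simp
    have h1 : ∑ c : ZMod p, ps (A * c ^ 2) = g * ((quadraticChar (ZMod p) A : ℤ) : ℂ) := by
      rw [← Finset.sum_fiberwise univ (fun c : ZMod p => c ^ 2) (fun c => ps (A * c ^ 2))]
      have e1 : ∀ y : ZMod p, ∑ c ∈ univ.filter (fun c : ZMod p => c ^ 2 = y), ps (A * c ^ 2)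
          = ((quadraticChar (ZMod p) y : ℤ) : ℂ) * ps (A * y) + ps (A * y) := by
        intro y
        have e2 : ∀ c ∈ univ.filter (fun c : ZMod p => c ^ 2 = y), ps (A * c ^ 2) = ps (A * y) := by
          intro c hc
          rw [(Finset.mem_filter.1 hc).2]
        rw [Finset.sum_congr rfl e2, Finset.sum_const, nsmul_eq_mul]
        have e3 : ((univ.filter fun c : ZMod p => c ^ 2 = y).card : ℂ) = ((quadraticChar (ZMod p) y : ℤ) : ℂ) + 1 := by
          have := congrArg (fun z : ℤ => (z : ℂ)) (hcard y)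
          push_cast at this
          exact this
        rw [e3]
        ring
      rw [Finset.sum_congr rfl fun y _ => e1 y, Finset.sum_add_distrib, h3 A]
      have e4 : ∑ y : ZMod p, ps (A * y) = 0 := by
        have e5 := AddChar.sum_mulShift A hprim
        rw [if_neg hA] at e5
        have e6 : ∀ y : ZMod p, ps (A * y) = ZMod.stdAddChar (y * A) := by
          intro y
          rw [mul_comm]
          rfl
        rw [Finset.sum_congr rfl fun y _ => e6 y]
        simpa using e5
      rw [e4, add_zero]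
    have h2z : (2 : ZMod p) ≠ 0 := Ring.two_ne_zero hchar
    have h4z : (4 : ZMod p) ≠ 0 := by
      rw [show (4 : ZMod p) = 2 * 2 by norm_num]
      exact mul_ne_zero h2z h2z
    have h2 : ∀ c : ZMod p, ps (A * c ^ 2 + B * c) = ps (A * (c + B / (2 * A)) ^ 2) * ps (-(B ^ 2 / (4 * A))) := by
      intro c
      unfold ps
      rw [← AddChar.map_add_eq_mul]
      congr 1
      field_simp
      ring
    rw [Finset.sum_congr rfl fun c _ => h2 c, ← Finset.sum_mul]
    have h5 : ∑ c : ZMod p, ps (A * (c + B / (2 * A)) ^ 2) = ∑ c : ZMod p, ps (A * c ^ 2) :=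
      Fintype.sum_equiv (Equiv.addRight (B / (2 * A))) _ _ fun c => rfl
    rw [h5, h1]

end Pool.Agent.OT
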