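import Pool.Agent.helper64.OT.SpecW

/-! # ot:QD1, the sum of the quadratic character over the values of a quadratic polynomial -/

set_option autoImplicit false

namespace Pool.Agent.OT

open Finset Polynomial Pool.Agent.helper82.Weil Pool.Agent.helper82.KL

theorem QD1_lin {p : ℕ} [Fact p.Prime] (hp : ringChar (ZMod p) ≠ 2) {b c : ZMod p} (hb : b ≠ 0) :
    ∑ x : ZMod p, quadraticChar (ZMod p) (b * x + c) = 0 := by
  rw [← quadraticChar_sum_zero (F := ZMod p) hp]
  exact Fintype.sum_bijective (fun x : ZMod p => b * x + c)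
    ((Equiv.addRight c).bijective.comp (mulLeft_bijective₀ b hb)) _ _ fun x => rfl

theorem QD1_sq {p : ℕ} [Fact p.Prime] (hp : ringChar (ZMod p) ≠ 2) {D : ZMod p} (hD : D ≠ 0) :
    ∑ y : ZMod p, quadraticChar (ZMod p) (y ^ 2 - D) = -1 := by
  classical
  have hcard : ∀ y : ZMod p, ((univ.filter fun c : ZMod p => c ^ 2 = y).card : ℤ) = quadraticChar (ZMod p) y + 1 := by
    intro y
    have e1 := quadraticChar_card_sqrts hp y
    rw [← e1]
    congr 2
    ext c
    simp
  have h1 : ∑ y : ZMod p, quadraticChar (ZMod p) (y ^ 2 - D) = ∑ t : ZMod p, (quadraticChar (ZMod p) t * quadraticChar (ZMod p) (t - D) + quadraticChar (ZMod p) (t - D)) := by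
    rw [← Finset.sum_fiberwise univ (fun c : ZMod p => c ^ 2) (fun c => quadraticChar (ZMod p) (c ^ 2 - D))]
    refine Finset.sum_congr rfl fun t _ => ?_
    have e2 : ∀ c ∈ univ.filter (fun c : ZMod p => c ^ 2 = t), quadraticChar (ZMod p) (c ^ 2 - D) = quadraticChar (ZMod p) (t - D) := by
      intro c hc
      rw [(Finset.mem_filter.1 hc).2]
    rw [Finset.sum_congr rfl e2, Finset.sum_const, nsmul_eq_mul, hcard t]
    ring
  have h2 : ∑ t : ZMod p, quadraticChar (ZMod p) (t - D) = 0 := by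
    have := QD1_lin hp (b := (1 : ZMod p)) (c := -D) one_ne_zero
    simpa only [one_mul, ← sub_eq_add_neg] using this
  have h3 : ∀ t : ZMod p, quadraticChar (ZMod p) t * quadraticChar (ZMod p) (t - D) = if t⁻¹ = 0 then 0 else quadraticChar (ZMod p) (1 - D * t⁻¹) := by
    intro t
    by_cases ht : t = 0
    · subst ht
      rw [if_pos (inv_zero), MulChar.map_zero, zero_mul]
    · rw [if_neg (inv_ne_zero ht), ← map_mul]
      have e1 : t * (t - D) = t ^ 2 * (1 - D * t⁻¹) := by
        field_simp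
      rw [e1, map_mul, quadraticChar_sq_one' ht, one_mul]
  have h4 : ∑ t : ZMod p, (if t⁻¹ = 0 then (0 : ℤ) else quadraticChar (ZMod p) (1 - D * t⁻¹)) = ∑ s : ZMod p, (if s = 0 then (0 : ℤ) else quadraticChar (ZMod p) (1 - D * s)) :=
    Fintype.sum_bijective (fun t : ZMod p => t⁻¹) inv_involutive.bijective _ _ fun t => rfl
  have h5 : ∑ s : ZMod p, (if s = 0 then (0 : ℤ) else quadraticChar (ZMod p) (1 - D * s)) = -1 := by
    have e1 : ∀ s : ZMod p, (if s = 0 then (0 : ℤ) else quadraticChar (ZMod p) (1 - D * s)) = quadraticChar (ZMod p) ((-D) * s + 1) - if s = 0 then 1 else 0 := by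
      intro s
      by_cases hs : s = 0
      · subst hs
        rw [if_pos rfl, if_pos rfl, mul_zero, zero_add, map_one, sub_self]
      · rw [if_neg hs, if_neg hs, sub_zero]
        congr 1
        ring
    rw [Finset.sum_congr rfl fun s _ => e1 s, Finset.sum_sub_distrib, QD1_lin hp (neg_ne_zero.2 hD), Finset.sum_ite_eq', if_pos (Finset.mem_univ _)]
    norm_num
  rw [h1, Finset.sum_add_distrib, h2, add_zero, Finset.sum_congr rfl fun t _ => h3 t, h4, h5]

theorem QD1 : QD1_stmt := by
  intro p _ hp2 a b c hD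
  have hp : ringChar (ZMod p) ≠ 2 := by
    rw [ZMod.ringChar_zmod_n]
    exact hp2
  have h2z : (2 : ZMod p) ≠ 0 := Ring.two_ne_zero hp
  rw [← Int.cast_sum]
  by_cases ha : a = 0
  · subst ha
    have hb : b ≠ 0 := by
      intro h
      apply hD
      rw [h]
      ring
    have h1 : ∑ x : ZMod p, quadraticChar (ZMod p) ((0 : ZMod p) * x ^ 2 + b * x + c) = 0 := by
      rw [← QD1_lin hp (b := b) (c := c) hb]
      refine Finset.sum_congr rfl fun x _ => ?_
      rw [zero_mul, zero_add]
    rw [h1]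
    norm_num
  · have h2a : (2 : ZMod p) * a ≠ 0 := mul_ne_zero h2z ha
    have h1 : ∀ x : ZMod p, quadraticChar (ZMod p) (a * x ^ 2 + b * x + c) = quadraticChar (ZMod p) a * quadraticChar (ZMod p) ((2 * a * x + b) ^ 2 - (b ^ 2 - 4 * a * c)) := by
      intro x
      have e1 : (2 * a * x + b) ^ 2 - (b ^ 2 - 4 * a * c) = 2 ^ 2 * (a * (a * x ^ 2 + b * x + c)) := by ring
      have e2 : quadraticChar (ZMod p) a * quadraticChar (ZMod p) a = 1 := by rw [← sq, quadraticChar_sq_one ha]
      rw [e1, map_mul, quadraticChar_sq_one' h2z, one_mul, map_mul, ← mul_assoc, e2, one_mul]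
    have h3 : ∑ x : ZMod p, quadraticChar (ZMod p) ((2 * a * x + b) ^ 2 - (b ^ 2 - 4 * a * c)) = -1 := by
      rw [← QD1_sq hp hD]
      exact Fintype.sum_bijective (fun x : ZMod p => 2 * a * x + b)
        ((Equiv.addRight b).bijective.comp (mulLeft_bijective₀ (2 * a) h2a)) _ _ fun x => rfl
    rw [Finset.sum_congr rfl fun x _ => h1 x, ← Finset.mul_sum, h3]
    rcases quadraticChar_dichotomy ha with h | h
    · rw [h]; norm_num
    · rw [h]; norm_num

end Pool.Agent.OT
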